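import Pool.Agent.Lib.MP_d28b99_gt.Final

/-!
# Failure of the uniform bound `λ_i ≥ K · i · L_i / g²`

For every `K > 0` there are `g ≥ 2`, a closed oriented hyperbolic surface of genus `g` and an index
`1 ≤ i ≤ 2g - 3` with `λ_i < K · i · L_i / g²`. The statement gives the failure in a quantitative
form, with a finite lower bound `B` of `L_i` in place of `L_i`.

The surfaces are quotients of the hyperbolic plane by principal congruence subgroups of the unit
group of a quaternion order, with large injectivity radius.
-/

set_option autoImplicit false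

open Pool.Agent.Lib.MP_d28b99_gt

theorem Pool.Agent.Results.MP_d28b99_gt.EigenvalueCutLengthDisproof.result (K : ℝ) (hK : 0 < K) :
    ∃ g : ℕ, 2 ≤ g ∧ ∃ S : ClosedHyperbolicSurface, S.HasGenus g ∧
      ∃ i : ℕ, 1 ≤ i ∧ i ≤ 2 * g - 3 ∧
        ∃ B : ℝ, 0 < B ∧ ENNReal.ofReal B ≤ S.cutLength i ∧
          S.eigenvalue i < ENNReal.ofReal (K * (i * B / g ^ 2)) :=
  main K hK
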